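import Pool.Agent.TH41.BL.ASMH
import Pool.Agent.TH41.BL.DEL
import Pool.Agent.TH41.BL.PK9

/-!
# MP_0430e4_lc: the asymptotic value of Delsarte's linear program for binary codes

Delsarte's linear programming bound: if `f(w) = ∑_j l_j K_j(w)` with the Krawtchouk polynomials
`K_j` of length `n`, `l_j ≥ 0`, `l_0 > 0`, and `f(w) ≤ 0` for `d ≤ w ≤ n`, then
`A(n, d) ≤ f(0) / l_0`. Let `LP(n, d)` be the best bound of this kind. We determine its exponential
rate: for every `0 < δ < 1/2`, `(1/n) log₂ LP(n, ⌈δ n⌉)` converges to the unique `θ` for which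
`(δ, θ)` lies on the curve with parametrisation `((1 - α₁(e)) / 2, S(e))` and
`((1 - α₀(e)) / 2, 1 - S(e))`, `e > 0`, and the point `(1/2 - 1/π, 1/2)`. Moreover no positive
semidefinite kernel on the cube gives a better bound than `LP(n, d)`; this includes the bounds
obtained from constant weight codes.
-/

open Filter Topology

namespace Pool.Agent.Results.MP_0430e4_lc.LinearProgrammingLimit

/-- `A(n,d)`: the largest size of a binary code of length `n` with minimum distance at least `d`. -/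
noncomputable def A (n d : ℕ) : ℕ :=
  sSup {k | ∃ C : Finset (Fin n → Bool),
    (∀ x ∈ C, ∀ y ∈ C, x ≠ y → d ≤ hammingDist x y) ∧ C.card = k}

/-- The binary Krawtchouk polynomial `K_j` of length `n` at `w`,
`∑_i (-1)^i (w choose i) (n - w choose j - i)`. -/
def krawtchouk (n j w : ℕ) : ℤ :=
  ∑ i ∈ Finset.range (j + 1), (-1) ^ i * (w.choose i : ℤ) * ((n - w).choose (j - i) : ℤ)

/-- `f(w) = ∑_{j ≤ n} l_j K_j(w)`. -/
noncomputable def combination (n : ℕ) (l : ℕ → ℝ) (w : ℕ) : ℝ :=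
  ∑ j ∈ Finset.range (n + 1), l j * (krawtchouk n j w : ℝ)

/-- The feasible solutions of Delsarte's linear program for binary codes of length `n` and minimum
distance `d`. Each of them gives the bound `A(n, d) ≤ f(0) / l_0`. -/
structure IsFeasible (n d : ℕ) (l : ℕ → ℝ) : Prop where
  nonneg : ∀ j, 0 ≤ l j
  pos : 0 < l 0
  nonpos : ∀ w : ℕ, d ≤ w → w ≤ n → combination n l w ≤ 0

/-- The value of Delsarte's linear program: the infimum of the bounds `f(0) / l_0`. -/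
noncomputable def LP (n d : ℕ) : ℝ :=
  sInf {v : ℝ | ∃ l : ℕ → ℝ, IsFeasible n d l ∧ v = combination n l 0 / l 0}

/-- The positive semidefinite kernels `G` on the cube `{0,1}^n` with `G(x, y) ≤ 0` for all words at
distance at least `d` and positive total sum. Such a kernel gives the bound
`A(n, d) ≤ 2^n ∑ G(x, x) / ∑ G(x, y)`; for kernels supported on the words of weight `w` this is the
linear programming (theta) bound for constant weight codes combined with the inequality of Elias and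
Bassalygo. -/
structure IsKernel (n d : ℕ) (G : (Fin n → Bool) → (Fin n → Bool) → ℝ) : Prop where
  symm : ∀ x y, G x y = G y x
  psd : ∀ a : (Fin n → Bool) → ℝ, 0 ≤ ∑ x, ∑ y, a x * G x y * a y
  nonpos : ∀ x y, d ≤ hammingDist x y → G x y ≤ 0
  pos : 0 < ∑ x, ∑ y, G x y

/-- `η(x) = -x log₂ x`, with `η(0) = 0`. -/
noncomputable def η (x : ℝ) : ℝ := -x * Real.logb 2 x

/-- The binary entropy function. -/
noncomputable def H (x : ℝ) : ℝ := η x + η (1 - x)

/-- `h(x) = H(1/2 - 1/2 √(1 - x))`. -/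
noncomputable def h (x : ℝ) : ℝ := H (1 / 2 - 1 / 2 * √(1 - x))

/-- `α_k(e) = ∑_j sech²((2 j + k) e) / ∑_j sech((2 j + k) e)`, sums over all integers `j`. -/
noncomputable def α (k : ℤ) (e : ℝ) : ℝ :=
  (∑' j : ℤ, 1 / Real.cosh ((2 * j + k) * e) ^ 2) / ∑' j : ℤ, 1 / Real.cosh ((2 * j + k) * e)

/-- `S(e) = h(sech² e) - h(sech² 2e) + h(sech² 3e) - …`. -/
noncomputable def S (e : ℝ) : ℝ := ∑' n : ℕ, (-1) ^ n * h (1 / Real.cosh ((n + 1) * e) ^ 2)

/-- The curve. -/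
def Curve : Set (ℝ × ℝ) :=
  {p | (∃ e : ℝ, 0 < e ∧ p = ((1 - α 1 e) / 2, S e)) ∨
    (∃ e : ℝ, 0 < e ∧ p = ((1 - α 0 e) / 2, 1 - S e)) ∨ p = (1 / 2 - 1 / Real.pi, 1 / 2)}

open Pool.Agent.TH41.BL

lemma α_zero (e : ℝ) : α 0 e = A2s e / As e := by
  unfold α A2s As
  simp

lemma α_one (e : ℝ) : α 1 e = B2s e / Bs e := by
  unfold α B2s Bs
  simp

lemma S_eq (e : ℝ) : S e = Ss e := rfl

lemma feas_iff (n d : ℕ) (l : ℕ → ℝ) : IsFeasible n d l ↔ Feas n d l :=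
  ⟨fun h => ⟨h.nonneg, h.pos, h.nonpos⟩, fun h => ⟨h.1, h.2.1, h.2.2⟩⟩

lemma comb_zero (n : ℕ) (l : ℕ → ℝ) : combination n l 0 = Vl n l := (FINf.Vl_eq n l).symm

lemma LP_eq (n d : ℕ) : LP n d = FINf.LPv n d := by
  unfold LP FINf.LPv
  congr 1
  ext v
  simp only [Set.mem_ofPred_eq, feas_iff, comb_zero]

lemma A_mem (n d : ℕ) : ∃ C : Finset (Fin n → Bool),
    (∀ x ∈ C, ∀ y ∈ C, x ≠ y → d ≤ hammingDist x y) ∧ C.card = A n d := by
  have hb : BddAbove {k | ∃ C : Finset (Fin n → Bool),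
      (∀ x ∈ C, ∀ y ∈ C, x ≠ y → d ≤ hammingDist x y) ∧ C.card = k} := by
    refine ⟨Fintype.card (Fin n → Bool), ?_⟩
    rintro k ⟨C, -, rfl⟩
    exact Finset.card_le_univ C
  have : A n d ∈ {k | ∃ C : Finset (Fin n → Bool),
      (∀ x ∈ C, ∀ y ∈ C, x ≠ y → d ≤ hammingDist x y) ∧ C.card = k} :=
    Nat.sSup_mem ⟨0, ∅, by simp, by simp⟩ hb
  exact this

lemma A_le (n d : ℕ) (hd : 1 ≤ d) : (A n d : ℝ) ≤ LP n d := by
  obtain ⟨C, hC, hcard⟩ := A_mem n d
  rw [LP_eq, ← hcard]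
  refine le_csInf ⟨_, _, DELf.feas_one hd, rfl⟩ ?_
  rintro v ⟨l, hl, rfl⟩
  exact DELf.delsarte k7_chr hl C hC

lemma point {δ θ : ℝ} (h : (δ, θ) ∈ Curve) : 0 < δ ∧ LIMf.Be δ (θ * Real.log 2) ∧ UB δ θ := by
  have hpi := Real.pi_pos
  obtain ⟨c1, c2, c3⟩ := k7_cv
  rcases h with ⟨e, he, hp⟩ | ⟨e, he, hp⟩ | hp
  · obtain ⟨h2, h3⟩ := Prod.mk.inj hp
    subst h2 h3
    have h4 := CV7f.al_lt_one he (k := 1) (by norm_num)
    rw [CV7f.al_one] at h4
    rw [α_one, S_eq]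
    exact ⟨by linarith, be_two he, c2 e he⟩
  · obtain ⟨h2, h3⟩ := Prod.mk.inj hp
    subst h2 h3
    have h4 := CV7f.al_lt_one he (k := 0) le_rfl
    rw [CV7f.al_zero] at h4
    rw [α_zero, S_eq]
    exact ⟨by linarith, be_one he, c1 e he⟩
  · obtain ⟨h2, h3⟩ := Prod.mk.inj hp
    subst h2 h3
    refine ⟨?_, be_mid, c3⟩
    have : 1 / Real.pi < 1 / 2 := one_div_lt_one_div_of_lt (by norm_num) (by linarith [Real.pi_gt_three])
    linarith

lemma kernel_bound (n d : ℕ) (G : (Fin n → Bool) → (Fin n → Bool) → ℝ) (h : IsKernel n d G) :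
    LP n d ≤ 2 ^ n * (∑ x, G x x) / ∑ x, ∑ y, G x y := by
  have hG : PSD (Matrix.of G) := by
    refine ⟨?_, h.psd⟩
    ext x y
    exact h.symm y x
  obtain ⟨l, hl, hv⟩ := PK9f.pk9 k7_pos k7_chr n d (Matrix.of G) hG h.nonpos h.pos
  rw [LP_eq]
  refine (csInf_le (FINf.bdd n d) ⟨l, hl, rfl⟩).trans ?_
  rw [div_le_div_iff₀ hl.2.1 h.pos]
  exact hv

/-- **The exponential rate of Delsarte's linear programming bound for binary codes.** -/
theorem result :
    (∀ n d : ℕ, 1 ≤ d → (A n d : ℝ) ≤ LP n d) ∧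
    (∀ δ : ℝ, 0 < δ → δ < 1 / 2 → ∃ θ, (δ, θ) ∈ Curve) ∧
    (∀ δ θ : ℝ, (δ, θ) ∈ Curve →
      Tendsto (fun n : ℕ => Real.logb 2 (LP n ⌈δ * n⌉₊) / n) atTop (𝓝 θ)) ∧
    ∀ (n d : ℕ) (G : (Fin n → Bool) → (Fin n → Bool) → ℝ), IsKernel n d G →
      LP n d ≤ 2 ^ n * (∑ x, G x x) / ∑ x, ∑ y, G x y := by
  refine ⟨A_le, fun δ h0 h1 => ?_, fun δ θ h => ?_, kernel_bound⟩
  · have hpi := Real.pi_pos
    rcases lt_trichotomy δ (1 / 2 - 1 / Real.pi) with h | h | h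
    · obtain ⟨e, he, hv⟩ := Pool.Agent.TH753.FF.exists_zero (y := 1 - 2 * δ)
        (by rw [show 2 / Real.pi = 2 * (1 / Real.pi) by ring]; linarith) (by linarith)
      refine ⟨1 - S e, Or.inr (Or.inl ⟨e, he, ?_⟩)⟩
      rw [α_zero, ← CV7f.al_zero, hv]
      congr 1
      ring
    · exact ⟨1 / 2, Or.inr (Or.inr (by rw [h]))⟩
    · obtain ⟨e, he, hv⟩ := Pool.Agent.TH753.FF.exists_one (y := 1 - 2 * δ) (by linarith)
        (by rw [show 2 / Real.pi = 2 * (1 / Real.pi) by ring]; linarith)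
      refine ⟨S e, Or.inl ⟨e, he, ?_⟩⟩
      rw [α_one, ← CV7f.al_one, hv]
      congr 1
      ring
  · obtain ⟨h0, h1, h2⟩ := point h
    simp_rw [LP_eq]
    exact FINf.limit h0 h1 h2

end Pool.Agent.Results.MP_0430e4_lc.LinearProgrammingLimit
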