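import Pool.Agent.TH753.MB3

/-!
# Binary codes: an explicit single-letter matrix bound below the bound of McEliece, Rodemich,
# Rumsey and Welch at every distance

`E(δ)` is the infimum of `S(P²) + S(Q²) - S(P² + Q²)` over all pairs of positive semidefinite
matrices of the same size with `tr (P² + Q²) = 1` and `2 tr (P Q) ≥ 1 - 2 δ`, where `S` is the von
Neumann entropy in bits. We show `R(δ) ≤ E(δ) < B(δ)` for all `0 < δ < 1/2`, and that `E(δ)` is at
most an explicit elementary expression with four free parameters (the case of `2 × 2` matrices).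
-/

open Filter

namespace Pool.Agent.Results.MP_0430e4_lc.MatrixBound

/-- `A(n,d)`: the largest size of a binary code of length `n` with minimum distance at least `d`. -/
noncomputable def A (n d : ℕ) : ℕ :=
  sSup {k | ∃ C : Finset (Fin n → Bool),
    (∀ x ∈ C, ∀ y ∈ C, x ≠ y → d ≤ hammingDist x y) ∧ C.card = k}

/-- The asymptotic rate `R(δ) = limsup (1/n) log₂ A(n, ⌈δ n⌉)`. -/
noncomputable def R (δ : ℝ) : ℝ :=
  limsup (fun n : ℕ => Real.logb 2 (A n ⌈δ * n⌉₊) / n) atTop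

/-- `η(x) = -x log₂ x`, with `η(0) = 0`. -/
noncomputable def η (x : ℝ) : ℝ := -x * Real.logb 2 x

/-- The binary entropy function. -/
noncomputable def H (x : ℝ) : ℝ := η x + η (1 - x)

/-- `h(x) = H(1/2 - 1/2 √(1 - x))`. -/
noncomputable def h (x : ℝ) : ℝ := H (1 / 2 - 1 / 2 * √(1 - x))

/-- The second linear programming bound
`B(δ) = min over 0 < u ≤ 1 - 2 δ of 1 + h(u²) - h(u² + 2 δ u + 2 δ)`. -/
noncomputable def B (δ : ℝ) : ℝ :=
  sInf {b | ∃ u : ℝ, 0 < u ∧ u ≤ 1 - 2 * δ ∧ b = 1 + h (u ^ 2) - h (u ^ 2 + 2 * δ * u + 2 * δ)}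

/-- The von Neumann entropy, in bits, of a real symmetric matrix: the sum of `η` over its
eigenvalues. -/
noncomputable def S {k : ℕ} (M : Matrix (Fin k) (Fin k) ℝ) : ℝ :=
  if hM : M.IsHermitian then ∑ i, η (hM.eigenvalues i) else 0

/-- The single-letter matrix bound. -/
noncomputable def E (δ : ℝ) : ℝ :=
  sInf {b | ∃ (k : ℕ) (P Q : Matrix (Fin k) (Fin k) ℝ), P.PosSemidef ∧ Q.PosSemidef ∧
    (P ^ 2 + Q ^ 2).trace = 1 ∧ 1 - 2 * δ ≤ 2 * (P * Q).trace ∧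
    b = S (P ^ 2) + S (Q ^ 2) - S (P ^ 2 + Q ^ 2)}

open Pool.Agent.H235R2.QLP Pool.Agent.TH753.MB

lemma η_eq (x : ℝ) : η x = Real.negMulLog x / Real.log 2 := by
  unfold η Real.logb Real.negMulLog
  ring

lemma H_eq (x : ℝ) : H x = Hq 2 x := by
  rw [Hq2_eq]
  unfold H
  rw [η_eq, η_eq, add_div]

lemma h_eq (x : ℝ) : h x = h2 x := by
  unfold h h2
  rw [H_eq]

lemma bracket_eq (δ u : ℝ) :
    1 + h (u ^ 2) - h (u ^ 2 + 2 * δ * u + 2 * δ) = lp2 δ u := by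
  unfold lp2
  rw [h_eq, h_eq]

lemma S_eq {k : ℕ} (M : Matrix (Fin k) (Fin k) ℝ) (hM : M.IsHermitian) :
    S M = ent M hM / Real.log 2 := by
  unfold S ent
  rw [dif_pos hM, Finset.sum_div]
  exact Finset.sum_congr rfl fun i _ => η_eq _

lemma A_bdd (n d : ℕ) : BddAbove {k | ∃ C : Finset (Fin n → Bool),
    (∀ x ∈ C, ∀ y ∈ C, x ≠ y → d ≤ hammingDist x y) ∧ C.card = k} := by
  refine ⟨Fintype.card (Fin n → Bool), ?_⟩
  rintro k ⟨C, -, rfl⟩
  exact Finset.card_le_univ C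

lemma A_mem (n d : ℕ) : ∃ C : Finset (Fin n → Bool),
    (∀ x ∈ C, ∀ y ∈ C, x ≠ y → d ≤ hammingDist x y) ∧ C.card = A n d := by
  have : A n d ∈ {k | ∃ C : Finset (Fin n → Bool),
      (∀ x ∈ C, ∀ y ∈ C, x ≠ y → d ≤ hammingDist x y) ∧ C.card = k} :=
    Nat.sSup_mem ⟨0, ∅, by simp, by simp⟩ (A_bdd n d)
  exact this

lemma one_le_A (n d : ℕ) : 1 ≤ A n d := by
  refine le_csSup (A_bdd n d) ⟨{fun _ => true}, ?_, by simp⟩
  intro x hx y hy hxy
  rw [Finset.mem_singleton] at hx hy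
  exact absurd (hx.trans hy.symm) hxy

/-- a bound on the size of codes is a bound on the rate -/
lemma R_le (δ β : ℝ) (hcode : ∀ ε : ℝ, 0 < ε → ∃ n0 : ℕ, ∀ n ≥ n0, ∀ C : Finset (Fin n → Bool),
      (∀ x ∈ C, ∀ y ∈ C, x ≠ y → δ * n ≤ hammingDist x y) →
      (C.card : ℝ) ≤ (2 : ℝ) ^ ((β + ε) * n)) : R δ ≤ β := by
  refine le_of_forall_pos_le_add fun ε hε => ?_
  obtain ⟨n0, hn0⟩ := hcode ε hε
  unfold R
  refine limsup_le_of_le ?_ ?_
  · refine ⟨0, ?_⟩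
    intro a ha
    rw [eventually_map] at ha
    obtain ⟨n, hn⟩ := ha.exists
    refine le_trans ?_ hn
    have : (1 : ℝ) ≤ A n ⌈δ * n⌉₊ := by exact_mod_cast one_le_A n _
    exact div_nonneg (Real.logb_nonneg (by norm_num) this) (Nat.cast_nonneg n)
  · filter_upwards [eventually_ge_atTop (max n0 1)] with n hn
    have hnn : n0 ≤ n := le_trans (le_max_left _ _) hn
    have hn1 : 1 ≤ n := le_trans (le_max_right _ _) hn
    have hnR : (0 : ℝ) < n := by exact_mod_cast hn1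
    obtain ⟨C, hC, hcard⟩ := A_mem n ⌈δ * n⌉₊
    have h2 := hn0 n hnn C (fun x hx y hy hxy => by
      refine le_trans (Nat.le_ceil (δ * n)) ?_
      exact_mod_cast hC x hx y hy hxy)
    rw [hcard] at h2
    have hA : (0 : ℝ) < A n ⌈δ * n⌉₊ := by exact_mod_cast one_le_A n _
    rw [div_le_iff₀ hnR, Real.logb_le_iff_le_rpow (by norm_num) hA]
    exact h2

/-- every pair of matrices gives an upper bound -/
lemma R_le_pair {δ : ℝ} (h0 : 0 < δ) {k : ℕ} (P Q : Matrix (Fin k) (Fin k) ℝ) (hP : P.PosSemidef)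
    (hQ : Q.PosSemidef) (htr : (P ^ 2 + Q ^ 2).trace = 1) (haff : 1 - 2 * δ ≤ 2 * (P * Q).trace) :
    R δ ≤ S (P ^ 2) + S (Q ^ 2) - S (P ^ 2 + Q ^ 2) := by
  have h1 : (P ^ 2).IsHermitian := hP.isHermitian.pow 2
  have h2 : (Q ^ 2).IsHermitian := hQ.isHermitian.pow 2
  have h3 : (P ^ 2 + Q ^ 2).IsHermitian := h1.add h2
  obtain ⟨d, hcc, hEH⟩ := exists_pair P Q hP hQ htr h1 h2 h3
  have hlog : 0 < Real.log 2 := Real.log_pos (by norm_num)
  rw [S_eq _ h1, S_eq _ h2, S_eq _ h3]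
  have e : ent _ h1 / Real.log 2 + ent _ h2 / Real.log 2 - ent _ h3 / Real.log 2
      = 1 - cc d.site / Real.log 2 := by
    rw [hcc]
    field_simp
    ring
  rw [e]
  refine R_le δ _ fun ε hε => code_bound d.site h0 ?_ hε
  rw [hEH]; linarith

lemma R_nonneg (δ : ℝ) : 0 ≤ R δ := by
  unfold R
  refine le_limsup_of_frequently_le ?_ ?_
  · refine Eventually.frequently (Eventually.of_forall fun n => ?_)
    have : (1 : ℝ) ≤ A n ⌈δ * n⌉₊ := by exact_mod_cast one_le_A n _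
    exact div_nonneg (Real.logb_nonneg (by norm_num) this) (Nat.cast_nonneg n)
  · refine ⟨1, ?_⟩
    rw [eventually_map]
    filter_upwards [eventually_ge_atTop 1] with n hn
    have hnR : (0 : ℝ) < n := by exact_mod_cast hn
    rw [div_le_iff₀ hnR, one_mul]
    have hA : (0 : ℝ) < A n ⌈δ * n⌉₊ := by exact_mod_cast one_le_A n _
    rw [Real.logb_le_iff_le_rpow (by norm_num) hA, Real.rpow_natCast]
    obtain ⟨C, -, hcard⟩ := A_mem n ⌈δ * n⌉₊
    rw [← hcard]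
    have := Finset.card_le_univ C
    rw [Fintype.card_fun, Fintype.card_bool, Fintype.card_fin] at this
    exact_mod_cast this

lemma E_le {δ : ℝ} (h0 : 0 < δ) {k : ℕ} (P Q : Matrix (Fin k) (Fin k) ℝ) (hP : P.PosSemidef)
    (hQ : Q.PosSemidef) (htr : (P ^ 2 + Q ^ 2).trace = 1) (haff : 1 - 2 * δ ≤ 2 * (P * Q).trace) :
    E δ ≤ S (P ^ 2) + S (Q ^ 2) - S (P ^ 2 + Q ^ 2) := by
  refine csInf_le ⟨R δ, ?_⟩ ⟨k, P, Q, hP, hQ, htr, haff, rfl⟩
  rintro b ⟨k', P', Q', hP', hQ', htr', haff', rfl⟩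
  exact R_le_pair h0 P' Q' hP' hQ' htr' haff'

lemma ent_reindex {ι κ : Type} [Fintype ι] [DecidableEq ι] [Fintype κ] [DecidableEq κ]
    (M : Matrix ι ι ℝ) (M' : Matrix κ κ ℝ) (h : M.IsHermitian) (h' : M'.IsHermitian)
    (hc : M'.charpoly = M.charpoly) : ent M' h' = ent M h := by
  have h1 := h.roots_charpoly_eq_eigenvalues
  have h2 := h'.roots_charpoly_eq_eigenvalues
  rw [hc, h1] at h2
  have h3 : Multiset.map h.eigenvalues Finset.univ.val
      = Multiset.map h'.eigenvalues Finset.univ.val := h2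
  have h5 : ent M h = (Multiset.map Real.negMulLog
      (Multiset.map h.eigenvalues Finset.univ.val)).sum := by
    rw [Multiset.map_map]; rfl
  have h6 : ent M' h' = (Multiset.map Real.negMulLog
      (Multiset.map h'.eigenvalues Finset.univ.val)).sum := by
    rw [Multiset.map_map]; rfl
  rw [h5, h6, h3]

/-- every site gives an upper bound on `E` -/
lemma E_le_site {δ : ℝ} (h0 : 0 < δ) {Ω : Type} [Fintype Ω] [DecidableEq Ω]
    (s : Pool.Agent.H390R2.LP.Site Ω (Fin 2)) (hs : EH s ≤ δ) :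
    E δ ≤ 1 - cc s / Real.log 2 := by
  obtain ⟨P, Q, hP, hQ, htr, haff, hent⟩ := pair_of_site s
  have e := Fintype.equivFin Ω
  have hlog : 0 < Real.log 2 := Real.log_pos (by norm_num)
  set P' := P.submatrix e.symm e.symm with hP'
  set Q' := Q.submatrix e.symm e.symm with hQ'
  have hp' : P'.PosSemidef := hP.submatrix e.symm
  have hq' : Q'.PosSemidef := hQ.submatrix e.symm
  have e1 : P' ^ 2 = (P ^ 2).submatrix e.symm e.symm := by
    rw [sq, sq, hP', Matrix.submatrix_mul_equiv]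
  have e2 : Q' ^ 2 = (Q ^ 2).submatrix e.symm e.symm := by
    rw [sq, sq, hQ', Matrix.submatrix_mul_equiv]
  have e3 : P' ^ 2 + Q' ^ 2 = (P ^ 2 + Q ^ 2).submatrix e.symm e.symm := by
    rw [e1, e2]; rfl
  have htr_sub : ∀ M : Matrix Ω Ω ℝ, (M.submatrix e.symm e.symm).trace = M.trace := by
    intro M
    unfold Matrix.trace
    simp only [Matrix.diag_apply, Matrix.submatrix_apply]
    exact Equiv.sum_comp e.symm (fun i => M i i)
  have hch : ∀ M : Matrix Ω Ω ℝ, (M.submatrix e.symm e.symm).charpoly = M.charpoly := fun M =>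
    Matrix.charpoly_reindex e M
  have h1 : (P ^ 2).IsHermitian := hP.isHermitian.pow 2
  have h2 : (Q ^ 2).IsHermitian := hQ.isHermitian.pow 2
  have h3 : (P ^ 2 + Q ^ 2).IsHermitian := h1.add h2
  have h1' : (P' ^ 2).IsHermitian := hp'.isHermitian.pow 2
  have h2' : (Q' ^ 2).IsHermitian := hq'.isHermitian.pow 2
  have h3' : (P' ^ 2 + Q' ^ 2).IsHermitian := h1'.add h2'
  have key := E_le h0 P' Q' hp' hq' (by rw [e3, htr_sub, htr]) (by
    rw [hP', hQ', Matrix.submatrix_mul_equiv, htr_sub, haff]; linarith)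
  refine le_trans key (le_of_eq ?_)
  rw [S_eq _ h1', S_eq _ h2', S_eq _ h3', ent_reindex (P ^ 2) (P' ^ 2) h1 h1' (by rw [e1, hch]),
    ent_reindex (Q ^ 2) (Q' ^ 2) h2 h2' (by rw [e2, hch]),
    ent_reindex (P ^ 2 + Q ^ 2) (P' ^ 2 + Q' ^ 2) h3 h3' (by rw [e3, hch])]
  have := hent h1 h2 h3
  rw [← add_div, ← sub_div, this, sub_div, div_self hlog.ne']

lemma Bq_le_B {δ : ℝ} (h0 : 0 < δ) (h1 : δ < 1 / 2) : Bq 2 δ ≤ B δ := by
  refine le_csInf ⟨_, 1 - 2 * δ, by linarith, le_refl _, rfl⟩ ?_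
  rintro b ⟨u, hu0, hu1, rfl⟩
  rw [bracket_eq]
  have ha := ach_lp2 h0 hu0.le hu1
  have := Bq_le_chord (q := 2) (r := 1) (δ₁ := δ) (δ₂ := δ) (by norm_num) zero_le_one le_rfl
    (by linarith) ha ha
  simpa using this

lemma two_by_two {δ : ℝ} (h0 : 0 < δ) {a₁ a₂ b₁ b₂ t : ℝ} (ha1 : 0 ≤ a₁) (ha2 : 0 ≤ a₂)
    (hb1 : 0 ≤ b₁) (hb2 : 0 ≤ b₂) (hsum : a₁ + a₂ + b₁ + b₂ = 1) (ht0 : 0 ≤ t) (ht1 : t ≤ 1)
    (haff : 1 - 2 * δ ≤ 2 * (t * (√(a₁ * b₁) + √(a₂ * b₂))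
      + (1 - t) * (√(a₁ * b₂) + √(a₂ * b₁)))) :
    E δ ≤ η a₁ + η a₂ + η b₁ + η b₂ - h (4 * (a₁ * a₂ + b₁ * b₂ + t * (a₁ * b₂ + a₂ * b₁)
      + (1 - t) * (a₁ * b₁ + a₂ * b₂))) := by
  have hc := Real.sq_sqrt ht0
  have hs := Real.sq_sqrt (show (0 : ℝ) ≤ 1 - t by linarith)
  set c := √t with hcd
  set s := √(1 - t) with hsd
  set u : Fin 2 → Fin 2 → ℝ := fun a ω => if a = ω then 1 else 0 with hu
  set v : Fin 2 → Fin 2 → ℝ := fun a ω => if a = 0 then (if ω = 0 then c else s)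
    else (if ω = 0 then -s else c) with hv
  have huON : ON u := by
    intro a b
    rcases fin2_cases a with rfl | rfl <;> rcases fin2_cases b with rfl | rfl <;>
      simp [hu]
  have hvON : ON v := by
    intro a b
    rw [Fin.sum_univ_two]
    rcases fin2_cases a with rfl | rfl <;> rcases fin2_cases b with rfl | rfl
    · simp only [hv, if_true, one_ne_zero, if_false]
      linarith
    · simp only [hv, if_true, one_ne_zero, if_false, zero_ne_one]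
      ring
    · simp only [hv, if_true, one_ne_zero, if_false]
      ring
    · simp only [hv, if_true, one_ne_zero, if_false]
      linarith
  set pa : Fin 2 → ℝ := fun i => if i = 0 then √a₁ else √a₂ with hpa
  set pb : Fin 2 → ℝ := fun i => if i = 0 then √b₁ else √b₂ with hpb
  have hpa0 : ∀ i, 0 ≤ pa i := fun i => by simp only [hpa]; split_ifs <;> positivity
  have hpb0 : ∀ i, 0 ≤ pb i := fun i => by simp only [hpb]; split_ifs <;> positivity
  have sa1 := Real.sq_sqrt ha1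
  have sa2 := Real.sq_sqrt ha2
  have sb1 := Real.sq_sqrt hb1
  have sb2 := Real.sq_sqrt hb2
  have hlog : 0 < Real.log 2 := Real.log_pos (by norm_num)
  set P := mat u pa with hP
  set Q := mat v pb with hQ
  have hPp : P.PosSemidef := mat_posSemidef _ _ hpa0
  have hQp : Q.PosSemidef := mat_posSemidef _ _ hpb0
  have hP2 : P ^ 2 = mat u (fun i => pa i ^ 2) := mat_sq huON _
  have hQ2 : Q ^ 2 = mat v (fun i => pb i ^ 2) := mat_sq hvON _
  have h1 : (P ^ 2).IsHermitian := hPp.isHermitian.pow 2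
  have h2 : (Q ^ 2).IsHermitian := hQp.isHermitian.pow 2
  have h3 : (P ^ 2 + Q ^ 2).IsHermitian := h1.add h2
  have htr : (P ^ 2 + Q ^ 2).trace = 1 := by
    rw [Matrix.trace_add, hP2, hQ2, mat_trace huON, mat_trace hvON]
    simp only [Fin.sum_univ_two, hpa, hpb, if_true, one_ne_zero, if_false]
    linarith
  have key := E_le h0 P Q hPp hQp htr (by
    refine le_trans haff (le_of_eq ?_)
    rw [hP, hQ, mat_mul_trace]
    simp only [Fin.sum_univ_two, hpa, hpb, hu, hv, if_true, one_ne_zero, if_false, zero_ne_one]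
    rw [Real.sqrt_mul ha1, Real.sqrt_mul ha2, Real.sqrt_mul ha1, Real.sqrt_mul ha2, ← hc]
    have : 1 - c ^ 2 = s ^ 2 := by rw [hc, hs]
    rw [this]
    ring)
  refine le_trans key (le_of_eq ?_)
  rw [S_eq _ h1, S_eq _ h2, S_eq _ h3, ent_mat huON _ _ h1 hP2, ent_mat hvON _ _ h2 hQ2]
  have hdet : (P ^ 2 + Q ^ 2).det = a₁ * a₂ + b₁ * b₂ + t * (a₁ * b₂ + a₂ * b₁)
      + (1 - t) * (a₁ * b₁ + a₂ * b₂) := by
    rw [hP2, hQ2, Matrix.det_fin_two]
    simp only [Matrix.add_apply, mat, Matrix.of_apply, Fin.sum_univ_two, hpa, hpb, hu, hv, if_true,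
      one_ne_zero, if_false, zero_ne_one, sa1, sa2, sb1, sb2]
    have hs' : s ^ 2 = 1 - c ^ 2 := by rw [hs, hc]
    rw [← hc]
    linear_combination (a₁ * b₁ + a₂ * b₂ + b₁ * b₂ * (s ^ 2 + 1 + c ^ 2)) * hs'
  have hd2 : (P ^ 2 + Q ^ 2).det = h3.eigenvalues 0 * h3.eigenvalues 1 := by
    rw [h3.det_eq_prod_eigenvalues, Fin.prod_univ_two]
    simp
  have ht2 : h3.eigenvalues 0 + h3.eigenvalues 1 = 1 := by
    have := h3.trace_eq_sum_eigenvalues
    rw [htr, Fin.sum_univ_two] at this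
    simpa using this.symm
  have hent : ent _ h3 / Real.log 2 = h (4 * (a₁ * a₂ + b₁ * b₂ + t * (a₁ * b₂ + a₂ * b₁)
      + (1 - t) * (a₁ * b₁ + a₂ * b₂))) := by
    rw [h_eq, ← hdet, hd2]
    have h5 : h3.eigenvalues 1 = 1 - h3.eigenvalues 0 := by linarith
    unfold ent
    rw [Fin.sum_univ_two, h5, ← h2_of_prod (l := h3.eigenvalues 0) rfl, Hq2_eq]
  rw [hent]
  simp only [Fin.sum_univ_two, hpa, hpb, if_true, one_ne_zero, if_false, sa1, sa2, sb1, sb2,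
    η_eq]
  ring

/-- For all `0 < δ < 1/2`: `R(δ) ≤ E(δ) < B(δ)`, and `E(δ)` is at most the explicit expression with
parameters `a₁, a₂, b₁, b₂ ≥ 0` of sum `1` and `0 ≤ t ≤ 1` whenever
`1 - 2 δ ≤ 2 (t (√(a₁ b₁) + √(a₂ b₂)) + (1 - t) (√(a₁ b₂) + √(a₂ b₁)))`. -/
theorem result (δ : ℝ) (h0 : 0 < δ) (h1 : δ < 1 / 2) :
    R δ ≤ E δ ∧ E δ < B δ ∧
    ∀ a₁ a₂ b₁ b₂ t : ℝ, 0 ≤ a₁ → 0 ≤ a₂ → 0 ≤ b₁ → 0 ≤ b₂ → a₁ + a₂ + b₁ + b₂ = 1 →
      0 ≤ t → t ≤ 1 →
      1 - 2 * δ ≤ 2 * (t * (√(a₁ * b₁) + √(a₂ * b₂)) + (1 - t) * (√(a₁ * b₂) + √(a₂ * b₁))) →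
      E δ ≤ η a₁ + η a₂ + η b₁ + η b₂ - h (4 * (a₁ * a₂ + b₁ * b₂ + t * (a₁ * b₂ + a₂ * b₁)
        + (1 - t) * (a₁ * b₁ + a₂ * b₂))) := by
  refine ⟨?_, ?_, ?_⟩
  · refine le_csInf ?_ ?_
    · refine ⟨_, 1, (1 / √2 : ℝ) • (1 : Matrix (Fin 1) (Fin 1) ℝ),
        (1 / √2 : ℝ) • (1 : Matrix (Fin 1) (Fin 1) ℝ), ?_, ?_, ?_, ?_, rfl⟩
      · exact Matrix.PosSemidef.one.smul (by positivity)
      · exact Matrix.PosSemidef.one.smul (by positivity)
      · simp [Matrix.trace, sq, ← mul_inv]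
        norm_num
      · simp [Matrix.trace, ← mul_inv]
        linarith
    · rintro b ⟨k, P, Q, hP, hQ, htr, haff, rfl⟩
      exact R_le_pair h0 P Q hP hQ htr haff
  · obtain ⟨Ω, i1, i2, s, hE, hB⟩ := exists_better (q := 2) le_rfl h0 (by norm_num; linarith)
    have h3 := E_le_site h0 s hE.le
    have h4 := Bq_le_B h0 h1
    push_cast at hB
    linarith
  · intro a₁ a₂ b₁ b₂ t ha1 ha2 hb1 hb2 hsum ht0 ht1 haff
    exact two_by_two h0 ha1 ha2 hb1 hb2 hsum ht0 ht1 haff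

end Pool.Agent.Results.MP_0430e4_lc.MatrixBound
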