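import Pool.Agent.TH590.FF.Bracket

/-!
# Binary codes: every probability measure on `[0, 1]` gives an explicit upper bound for `R(δ)`

For a probability measure `μ` on `[0, 1]` put
`Φ(μ) = 1 - 1/2 ∫₀¹ log₂ (∫ dμ(t) / (1 - t s²)) ds / s²`. We show `R(δ) ≤ Φ(μ)` whenever
`∫ √(1 - t) dμ(t) ≥ 1 - 2 δ`; the infimum `M(δ)` over all such `μ` satisfies
`R(δ) ≤ M(δ) < B(δ)` for all `0 < δ < 1/2`, and `M(1/2 - 1/π) ≤ 1/2` (arcsine law).
-/

open Filter MeasureTheory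

namespace Pool.Agent.Results.MP_0430e4_lc.MeasureBound

/-- `A(n,d)`: the largest size of a binary code of length `n` with minimum distance at least `d`. -/
noncomputable def A (n d : ℕ) : ℕ :=
  sSup {k | ∃ C : Finset (Fin n → Bool),
    (∀ x ∈ C, ∀ y ∈ C, x ≠ y → d ≤ hammingDist x y) ∧ C.card = k}

/-- The asymptotic rate `R(δ) = limsup (1/n) log₂ A(n, ⌈δ n⌉)`. -/
noncomputable def R (δ : ℝ) : ℝ :=
  limsup (fun n : ℕ => Real.logb 2 (A n ⌈δ * n⌉₊) / n) atTop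

/-- The binary entropy function `H₂(x) = - x log₂ x - (1 - x) log₂ (1 - x)`. -/
noncomputable def H (x : ℝ) : ℝ := -x * Real.logb 2 x - (1 - x) * Real.logb 2 (1 - x)

/-- `h(x) = H₂(1/2 - 1/2 √(1 - x))`. -/
noncomputable def h (x : ℝ) : ℝ := H (1 / 2 - 1 / 2 * √(1 - x))

/-- The second linear programming bound
`B(δ) = min over 0 < u ≤ 1 - 2 δ of 1 + h(u²) - h(u² + 2 δ u + 2 δ)`. -/
noncomputable def B (δ : ℝ) : ℝ :=
  sInf {b | ∃ u : ℝ, 0 < u ∧ u ≤ 1 - 2 * δ ∧ b = 1 + h (u ^ 2) - h (u ^ 2 + 2 * δ * u + 2 * δ)}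

/-- `Φ(μ) = 1 - 1/2 ∫₀¹ log₂ (∫ dμ(t) / (1 - t s²)) ds / s²`. -/
noncomputable def Φ (μ : Measure ℝ) : ℝ :=
  1 - 1 / 2 * ∫ s in (0 : ℝ)..1, Real.logb 2 (∫ t, 1 / (1 - t * s ^ 2) ∂μ) / s ^ 2

/-- Probability measures on `[0, 1]` with `∫ √(1 - t) dμ(t) ≥ 1 - 2 δ`. -/
def Adm (δ : ℝ) (μ : Measure ℝ) : Prop :=
  μ Set.univ = 1 ∧ μ (Set.Icc 0 1)ᶜ = 0 ∧ 1 - 2 * δ ≤ ∫ t, √(1 - t) ∂μ

/-- `M(δ)`: the infimum of `Φ(μ)` over these measures. -/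
noncomputable def M (δ : ℝ) : ℝ := sInf {b | ∃ μ : Measure ℝ, Adm δ μ ∧ b = Φ μ}

open Pool.Agent.TH590.FF

lemma Φ_eq (μ : Measure ℝ) : Φ μ = (Real.log 2 - 1 / 2 * JM μ) / Real.log 2 := by
  have hlog : 0 < Real.log 2 := Real.log_pos (by norm_num)
  unfold Φ JM Real.logb
  have e : ∫ s in (0 : ℝ)..1, Real.log (∫ t, 1 / (1 - t * s ^ 2) ∂μ) / Real.log 2 / s ^ 2
      = (∫ s in (0 : ℝ)..1, Real.log (∫ t, 1 / (1 - t * s ^ 2) ∂μ) / s ^ 2) / Real.log 2 := by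
    rw [← intervalIntegral.integral_div]
    congr 1
    funext s
    ring
  rw [e]
  field_simp

lemma supp_iff (μ : Measure ℝ) : μ (Set.Icc 0 1)ᶜ = 0 ↔ ∀ᵐ t ∂μ, 0 ≤ t ∧ t ≤ 1 := by
  rw [ae_iff]
  rfl

lemma A_bdd (n d : ℕ) : BddAbove {k | ∃ C : Finset (Fin n → Bool),
    (∀ x ∈ C, ∀ y ∈ C, x ≠ y → d ≤ hammingDist x y) ∧ C.card = k} := by
  refine ⟨Fintype.card (Fin n → Bool), ?_⟩
  rintro k ⟨C, -, rfl⟩
  exact Finset.card_le_univ C

lemma A_mem (n d : ℕ) : ∃ C : Finset (Fin n → Bool),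
    (∀ x ∈ C, ∀ y ∈ C, x ≠ y → d ≤ hammingDist x y) ∧ C.card = A n d := by
  have : A n d ∈ {k | ∃ C : Finset (Fin n → Bool),
      (∀ x ∈ C, ∀ y ∈ C, x ≠ y → d ≤ hammingDist x y) ∧ C.card = k} :=
    Nat.sSup_mem ⟨0, ∅, by simp, by simp⟩ (A_bdd n d)
  exact this

lemma one_le_A (n d : ℕ) : 1 ≤ A n d := by
  refine le_csSup (A_bdd n d) ⟨{fun _ => true}, ?_, by simp⟩
  intro x hx y hy hxy
  rw [Finset.mem_singleton] at hx hy
  exact absurd (hx.trans hy.symm) hxy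

/-- a bound on the size of codes is a bound on the rate -/
lemma R_le (δ β : ℝ) (hcode : ∀ ε : ℝ, 0 < ε → ∃ n0 : ℕ, ∀ n ≥ n0, ∀ C : Finset (Fin n → Bool),
      (∀ x ∈ C, ∀ y ∈ C, x ≠ y → δ * n ≤ hammingDist x y) →
      (C.card : ℝ) ≤ (2 : ℝ) ^ ((β + ε) * n)) : R δ ≤ β := by
  refine le_of_forall_pos_le_add fun ε hε => ?_
  obtain ⟨n0, hn0⟩ := hcode ε hε
  unfold R
  refine limsup_le_of_le ?_ ?_
  · refine ⟨0, ?_⟩
    intro a ha
    rw [eventually_map] at ha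
    obtain ⟨n, hn⟩ := ha.exists
    refine le_trans ?_ hn
    have : (1 : ℝ) ≤ A n ⌈δ * n⌉₊ := by exact_mod_cast one_le_A n _
    exact div_nonneg (Real.logb_nonneg (by norm_num) this) (Nat.cast_nonneg n)
  · filter_upwards [eventually_ge_atTop (max n0 1)] with n hn
    have hnn : n0 ≤ n := le_trans (le_max_left _ _) hn
    have hn1 : 1 ≤ n := le_trans (le_max_right _ _) hn
    have hnR : (0 : ℝ) < n := by exact_mod_cast hn1
    obtain ⟨C, hC, hcard⟩ := A_mem n ⌈δ * n⌉₊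
    have h2 := hn0 n hnn C (fun x hx y hy hxy => by
      refine le_trans (Nat.le_ceil (δ * n)) ?_
      exact_mod_cast hC x hx y hy hxy)
    rw [hcard] at h2
    have hA : (0 : ℝ) < A n ⌈δ * n⌉₊ := by exact_mod_cast one_le_A n _
    rw [div_le_iff₀ hnR, Real.logb_le_iff_le_rpow (by norm_num) hA]
    exact h2

/-- every admissible measure gives an upper bound -/
lemma R_le_Φ {δ : ℝ} (h0 : 0 < δ) {μ : Measure ℝ} (hμ : Adm δ μ) : R δ ≤ Φ μ := by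
  have hlog : 0 < Real.log 2 := Real.log_pos (by norm_num)
  have hprob : IsProbabilityMeasure μ := ⟨hμ.1⟩
  refine R_le δ _ fun ε hε => ?_
  obtain ⟨Ω, i1, i2, s, hcc, hE⟩ := exists_site_meas μ ((supp_iff μ).mp hμ.2.1) h0 hμ.2.2
    (ε := ε / 2 * Real.log 2) (by positivity)
  obtain ⟨n0, hn0⟩ := code_bound s h0 hE (half_pos hε)
  refine ⟨n0, fun n hn C hC => (hn0 n hn C hC).trans ?_⟩
  apply Real.rpow_le_rpow_of_exponent_le (by norm_num)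
  apply mul_le_mul_of_nonneg_right _ (Nat.cast_nonneg n)
  rw [Φ_eq]
  have h1 : (Real.log 2 - 1 / 2 * JM μ) / Real.log 2 = 1 - (1 / 2 * JM μ) / Real.log 2 := by
    field_simp
  rw [h1]
  have h2 : (1 / 2 * JM μ) / Real.log 2 - ε / 2 ≤ Pool.Agent.H235R2.QLP.cc s / Real.log 2 := by
    rw [div_sub' hlog.ne']
    apply div_le_div_of_nonneg_right _ hlog.le
    linarith
  linarith

lemma h_eq (x : ℝ) : h x = kk x / Real.log 2 := by
  unfold h H kk en Real.negMulLog Real.logb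
  have e1 : 1 / 2 - 1 / 2 * √(1 - x) = (1 - √(1 - x)) / 2 := by ring
  have e2 : 1 - (1 - √(1 - x)) / 2 = (1 + √(1 - x)) / 2 := by ring
  rw [e1, e2]
  ring

lemma bracket_eq (δ u : ℝ) : 1 + h (u ^ 2) - h (u ^ 2 + 2 * δ * u + 2 * δ)
    = br δ u / Real.log 2 := by
  have hlog : 0 < Real.log 2 := Real.log_pos (by norm_num)
  rw [h_eq, h_eq]
  unfold br
  field_simp

/-- For all `0 < δ < 1/2`: `R(δ) ≤ M(δ) < B(δ)`; in addition `M(1/2 - 1/π) ≤ 1/2`. -/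
theorem result : (∀ δ : ℝ, 0 < δ → δ < 1 / 2 → R δ ≤ M δ ∧ M δ < B δ) ∧
    M (1 / 2 - 1 / Real.pi) ≤ 1 / 2 := by
  have hlog : 0 < Real.log 2 := Real.log_pos (by norm_num)
  have hpi := Real.pi_gt_three
  have hbdd : ∀ δ : ℝ, 0 < δ → BddBelow {b | ∃ μ : Measure ℝ, Adm δ μ ∧ b = Φ μ} := by
    intro δ h0
    refine ⟨R δ, ?_⟩
    rintro b ⟨μ, hμ, rfl⟩
    exact R_le_Φ h0 hμ
  refine ⟨fun δ h0 h1 => ?_, ?_⟩
  · obtain ⟨μ, b, hprob, hsupp, hc, hlt, hb⟩ := exists_below h0 h1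
    have hadm : Adm δ μ := ⟨hprob.measure_univ, (supp_iff μ).mpr hsupp, hc⟩
    refine ⟨?_, ?_⟩
    · refine le_csInf ⟨_, μ, hadm, rfl⟩ ?_
      rintro b ⟨ν, hν, rfl⟩
      exact R_le_Φ h0 hν
    · have h2 : M δ ≤ Φ μ := csInf_le (hbdd δ h0) ⟨μ, hadm, rfl⟩
      have h3 : Φ μ < b / Real.log 2 := by
        rw [Φ_eq]
        exact div_lt_div_of_pos_right hlt hlog
      have h4 : b / Real.log 2 ≤ B δ := by
        refine le_csInf ⟨_, 1 - 2 * δ, by linarith, le_rfl, rfl⟩ ?_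
        rintro c ⟨u, hu0, hu1, rfl⟩
        rw [bracket_eq]
        exact div_le_div_of_nonneg_right (hb u hu0 hu1) hlog.le
      linarith
  · have hδ : 0 < 1 / 2 - 1 / Real.pi := by
      have : 1 / Real.pi < 1 / 2 := one_div_lt_one_div_of_lt (by norm_num) (by linarith)
      linarith
    have hadm : Adm (1 / 2 - 1 / Real.pi) arcs := by
      refine ⟨measure_univ, (supp_iff _).mpr arcs_supp, ?_⟩
      rw [arcs_sqrt]
      have : 1 - 2 * (1 / 2 - 1 / Real.pi) = 2 / Real.pi := by ring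
      rw [this]
    have h2 : M (1 / 2 - 1 / Real.pi) ≤ Φ arcs := csInf_le (hbdd _ hδ) ⟨arcs, hadm, rfl⟩
    have h3 : Φ arcs = 1 / 2 := by
      rw [Φ_eq, JM_arcs]
      field_simp
      ring
    rw [h3] at h2
    exact h2

end Pool.Agent.Results.MP_0430e4_lc.MeasureBound
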