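import Pool.Agent.TH753.FF15

/-!
# Binary codes: a closed form curve between the rate and the second linear programming bound

With `S(e) = ∑_{n ≥ 1} (-1)^(n-1) h(sech²(n e))`, the curve consists of the points
`(1/2 (1 - ∑ sech²((2 j + 1) e) / ∑ sech((2 j + 1) e)), S(e))` and
`(1/2 (1 - ∑ sech²(2 j e) / ∑ sech(2 j e)), 1 - S(e))`, `e > 0`, sums over all integers `j`, and of
the point `(1/2 - 1/π, 1/2)` in which they meet. Over every `0 < δ < 1/2` there is a point `(δ, θ)`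
of the curve, and every such point satisfies `R(δ) ≤ θ < B(δ)`.
-/

open Filter

namespace Pool.Agent.Results.MP_0430e4_lc.ThetaCurve

/-- `A(n,d)`: the largest size of a binary code of length `n` with minimum distance at least `d`. -/
noncomputable def A (n d : ℕ) : ℕ :=
  sSup {k | ∃ C : Finset (Fin n → Bool),
    (∀ x ∈ C, ∀ y ∈ C, x ≠ y → d ≤ hammingDist x y) ∧ C.card = k}

/-- The asymptotic rate `R(δ) = limsup (1/n) log₂ A(n, ⌈δ n⌉)`. -/
noncomputable def R (δ : ℝ) : ℝ :=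
  limsup (fun n : ℕ => Real.logb 2 (A n ⌈δ * n⌉₊) / n) atTop

/-- `η(x) = -x log₂ x`, with `η(0) = 0`. -/
noncomputable def η (x : ℝ) : ℝ := -x * Real.logb 2 x

/-- The binary entropy function. -/
noncomputable def H (x : ℝ) : ℝ := η x + η (1 - x)

/-- `h(x) = H(1/2 - 1/2 √(1 - x))`. -/
noncomputable def h (x : ℝ) : ℝ := H (1 / 2 - 1 / 2 * √(1 - x))

/-- The second linear programming bound
`B(δ) = min over 0 < u ≤ 1 - 2 δ of 1 + h(u²) - h(u² + 2 δ u + 2 δ)`. -/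
noncomputable def B (δ : ℝ) : ℝ :=
  sInf {b | ∃ u : ℝ, 0 < u ∧ u ≤ 1 - 2 * δ ∧ b = 1 + h (u ^ 2) - h (u ^ 2 + 2 * δ * u + 2 * δ)}

/-- `α_k(e) = ∑_j sech²((2 j + k) e) / ∑_j sech((2 j + k) e)`, sums over all integers `j`. -/
noncomputable def α (k : ℤ) (e : ℝ) : ℝ :=
  (∑' j : ℤ, 1 / Real.cosh ((2 * j + k) * e) ^ 2) / ∑' j : ℤ, 1 / Real.cosh ((2 * j + k) * e)

/-- `S(e) = h(sech² e) - h(sech² 2e) + h(sech² 3e) - …`. -/
noncomputable def S (e : ℝ) : ℝ := ∑' n : ℕ, (-1) ^ n * h (1 / Real.cosh ((n + 1) * e) ^ 2)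

/-- The curve. -/
def Curve : Set (ℝ × ℝ) :=
  {p | (∃ e : ℝ, 0 < e ∧ p = ((1 - α 1 e) / 2, S e)) ∨
    (∃ e : ℝ, 0 < e ∧ p = ((1 - α 0 e) / 2, 1 - S e)) ∨ p = (1 / 2 - 1 / Real.pi, 1 / 2)}

open Pool.Agent.H235R2.QLP Pool.Agent.TH753.FF

lemma η_eq (x : ℝ) : η x = Real.negMulLog x / Real.log 2 := by
  unfold η Real.logb Real.negMulLog
  ring

lemma A_bdd (n d : ℕ) : BddAbove {k | ∃ C : Finset (Fin n → Bool),
    (∀ x ∈ C, ∀ y ∈ C, x ≠ y → d ≤ hammingDist x y) ∧ C.card = k} := by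
  refine ⟨Fintype.card (Fin n → Bool), ?_⟩
  rintro k ⟨C, -, rfl⟩
  exact Finset.card_le_univ C

lemma A_mem (n d : ℕ) : ∃ C : Finset (Fin n → Bool),
    (∀ x ∈ C, ∀ y ∈ C, x ≠ y → d ≤ hammingDist x y) ∧ C.card = A n d := by
  have : A n d ∈ {k | ∃ C : Finset (Fin n → Bool),
      (∀ x ∈ C, ∀ y ∈ C, x ≠ y → d ≤ hammingDist x y) ∧ C.card = k} :=
    Nat.sSup_mem ⟨0, ∅, by simp, by simp⟩ (A_bdd n d)
  exact this

lemma one_le_A (n d : ℕ) : 1 ≤ A n d := by
  refine le_csSup (A_bdd n d) ⟨{fun _ => true}, ?_, by simp⟩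
  intro x hx y hy hxy
  rw [Finset.mem_singleton] at hx hy
  exact absurd (hx.trans hy.symm) hxy

/-- a bound on the size of codes is a bound on the rate -/
lemma R_le (δ β : ℝ) (hcode : ∀ ε : ℝ, 0 < ε → ∃ n0 : ℕ, ∀ n ≥ n0, ∀ C : Finset (Fin n → Bool),
      (∀ x ∈ C, ∀ y ∈ C, x ≠ y → δ * n ≤ hammingDist x y) →
      (C.card : ℝ) ≤ (2 : ℝ) ^ ((β + ε) * n)) : R δ ≤ β := by
  refine le_of_forall_pos_le_add fun ε hε => ?_
  obtain ⟨n0, hn0⟩ := hcode ε hε
  unfold R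
  refine limsup_le_of_le ?_ ?_
  · refine ⟨0, ?_⟩
    intro a ha
    rw [eventually_map] at ha
    obtain ⟨n, hn⟩ := ha.exists
    refine le_trans ?_ hn
    have : (1 : ℝ) ≤ A n ⌈δ * n⌉₊ := by exact_mod_cast one_le_A n _
    exact div_nonneg (Real.logb_nonneg (by norm_num) this) (Nat.cast_nonneg n)
  · filter_upwards [eventually_ge_atTop (max n0 1)] with n hn
    have hnn : n0 ≤ n := le_trans (le_max_left _ _) hn
    have hn1 : 1 ≤ n := le_trans (le_max_right _ _) hn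
    have hnR : (0 : ℝ) < n := by exact_mod_cast hn1
    obtain ⟨C, hC, hcard⟩ := A_mem n ⌈δ * n⌉₊
    have h2 := hn0 n hnn C (fun x hx y hy hxy => by
      refine le_trans (Nat.le_ceil (δ * n)) ?_
      exact_mod_cast hC x hx y hy hxy)
    rw [hcard] at h2
    have hA : (0 : ℝ) < A n ⌈δ * n⌉₊ := by exact_mod_cast one_le_A n _
    rw [div_le_iff₀ hnR, Real.logb_le_iff_le_rpow (by norm_num) hA]
    exact h2

/-- the entropy of a rapidity in terms of `h` -/
lemma h_cosh (x : ℝ) : h (1 / Real.cosh x ^ 2) = se x := by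
  have key : ∀ y : ℝ, 0 ≤ y → h (1 / Real.cosh y ^ 2) = se (-y) := by
    intro y hy
    unfold h H se
    have h1 : √(1 - 1 / Real.cosh y ^ 2) = Real.tanh y := by
      have h2 : 1 - 1 / Real.cosh y ^ 2 = Real.tanh y ^ 2 := by
        rw [Real.tanh_eq_sinh_div_cosh]
        have h3 := (Real.cosh_pos y).ne'
        have h4 := Real.cosh_sq y
        field_simp
        linarith
      rw [h2, Real.sqrt_sq]
      rw [Real.tanh_eq_sinh_div_cosh]
      exact div_nonneg (Real.sinh_nonneg_iff.mpr hy) (Real.cosh_pos y).le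
    have h5 : (1 / 2 - 1 / 2 * Real.tanh y : ℝ) = sg (-y) := by
      unfold sg
      rw [Real.tanh_neg]; ring
    rw [h1, h5, η_eq, η_eq, add_div]
  rcases le_total 0 x with h0 | h0
  · rw [key x h0, se_neg]
  · have := key (-x) (by linarith)
    rw [Real.cosh_neg, neg_neg] at this
    exact this

lemma h_hh (x : ℝ) : h x = hh x := by
  unfold h H hh
  rw [η_eq, η_eq, add_div]

lemma α_al (k : ℤ) (e : ℝ) : α k e = al k e := by
  unfold α al Wl Zl xl
  have h1 : ∀ j : ℤ, (2 * (j : ℝ) + k) * e = k * e + 2 * (j : ℝ) * e := fun j => by ring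
  simp_rw [h1]

lemma se_zero : se 0 = 1 := by
  unfold se sg
  rw [Real.tanh_zero]
  have h1 : Real.negMulLog ((1 + 0) / 2) = Real.log 2 / 2 := by
    unfold Real.negMulLog
    rw [show ((1 + 0) / 2 : ℝ) = 2⁻¹ by norm_num, Real.log_inv]
    ring
  rw [show (1 : ℝ) - (1 + 0) / 2 = (1 + 0) / 2 by norm_num, h1]
  have : Real.log 2 ≠ 0 := (Real.log_pos (by norm_num)).ne'
  field_simp
  norm_num

lemma summable_nat {e : ℝ} (he : 0 < e) (b : ℝ) : Summable fun n : ℕ => se (b + 2 * (n : ℝ) * e) :=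
  ((summable_se b he).comp_injective (i := fun n : ℕ => (n : ℤ)) Nat.cast_injective).congr
    fun n => by simp

/-- the odd terms -/
noncomputable def So (e : ℝ) : ℝ := ∑' n : ℕ, se (e + 2 * (n : ℝ) * e)
/-- the even terms -/
noncomputable def Se (e : ℝ) : ℝ := ∑' n : ℕ, se (2 * e + 2 * (n : ℝ) * e)

lemma sum_even {e : ℝ} (he : 0 < e) : ∑' j : ℤ, se (2 * (j : ℝ) * e) = 1 + 2 * Se e := by
  have h1 := tsum_of_add_one_of_neg_add_one (f := fun j : ℤ => se (2 * (j : ℝ) * e))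
    ((summable_nat he (2 * e)).congr fun n => by push_cast; congr 1; ring)
    ((summable_nat he (2 * e)).congr fun n => by
      push_cast
      rw [← se_neg]
      congr 1
      ring)
  rw [h1]
  have e1 : ∑' n : ℕ, se (2 * (((n : ℤ) + 1 : ℤ) : ℝ) * e) = Se e := by
    refine tsum_congr fun n => ?_
    push_cast
    congr 1
    ring
  have e2 : ∑' n : ℕ, se (2 * ((-((n : ℤ) + 1) : ℤ) : ℝ) * e) = Se e := by
    refine tsum_congr fun n => ?_
    push_cast
    rw [← se_neg]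
    congr 1
    ring
  rw [e1, e2]
  simp only [Int.cast_zero, mul_zero, zero_mul, se_zero]
  ring

lemma sum_odd {e : ℝ} (he : 0 < e) : ∑' j : ℤ, se ((2 * (j : ℝ) + 1) * e) = 2 * So e := by
  have h1 := tsum_of_nat_of_neg_add_one (f := fun j : ℤ => se ((2 * (j : ℝ) + 1) * e))
    ((summable_nat he e).congr fun n => by push_cast; congr 1; ring)
    ((summable_nat he e).congr fun n => by
      push_cast
      rw [← se_neg]
      congr 1
      ring)
  rw [h1]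
  have e1 : ∑' n : ℕ, se ((2 * (((n : ℤ)) : ℝ) + 1) * e) = So e := by
    refine tsum_congr fun n => ?_
    push_cast
    congr 1
    ring
  have e2 : ∑' n : ℕ, se ((2 * ((-((n : ℤ) + 1) : ℤ) : ℝ) + 1) * e) = So e := by
    refine tsum_congr fun n => ?_
    push_cast
    rw [← se_neg]
    congr 1
    ring
  rw [e1, e2]
  ring

lemma S_eq {e : ℝ} (he : 0 < e) : S e = So e - Se e := by
  unfold S
  simp_rw [h_hh, hh_cosh]
  have h1 : ∀ k : ℕ, (-1 : ℝ) ^ (2 * k) * se ((((2 * k : ℕ) : ℝ) + 1) * e)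
      = se (e + 2 * (k : ℝ) * e) := by
    intro k
    rw [pow_mul]
    push_cast
    norm_num
    congr 1
    ring
  have h2 : ∀ k : ℕ, (-1 : ℝ) ^ (2 * k + 1) * se ((((2 * k + 1 : ℕ) : ℝ) + 1) * e)
      = -se (2 * e + 2 * (k : ℝ) * e) := by
    intro k
    rw [pow_succ, pow_mul]
    push_cast
    norm_num
    congr 1
    ring
  have h3 := tsum_even_add_odd (f := fun n : ℕ => (-1 : ℝ) ^ n * se (((n : ℝ) + 1) * e))
    ((summable_nat he e).congr fun k => (h1 k).symm)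
    ((summable_nat he (2 * e)).neg.congr fun k => (h2 k).symm)
  rw [← h3]
  simp_rw [h1, h2]
  rw [tsum_neg]
  unfold So Se
  ring

lemma val_one {e : ℝ} (he : 0 < e) : 1 / 2 + 1 / 2 * (∑' j : ℤ, (se (((1 : ℤ) : ℝ) * e
    + 2 * (j : ℝ) * e) - se (((1 : ℤ) : ℝ) * e + (2 * (j : ℝ) + 1) * e))) = S e := by
  rw [(summable_se _ he).tsum_sub (summable_se' _ he), S_eq he]
  have e1 : ∑' j : ℤ, se (((1 : ℤ) : ℝ) * e + 2 * (j : ℝ) * e) = 2 * So e := by
    rw [← sum_odd he]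
    refine tsum_congr fun j => ?_
    push_cast
    congr 1
    ring
  have e2 : ∑' j : ℤ, se (((1 : ℤ) : ℝ) * e + (2 * (j : ℝ) + 1) * e) = 1 + 2 * Se e := by
    rw [← sum_even he, ← (Equiv.addRight (1 : ℤ)).tsum_eq (fun j : ℤ => se (2 * (j : ℝ) * e))]
    refine tsum_congr fun j => ?_
    simp only [Equiv.coe_addRight]
    push_cast
    congr 1
    ring
  rw [e1, e2]
  ring

lemma val_zero {e : ℝ} (he : 0 < e) : 1 / 2 + 1 / 2 * (∑' j : ℤ, (se (((0 : ℤ) : ℝ) * e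
    + 2 * (j : ℝ) * e) - se (((0 : ℤ) : ℝ) * e + (2 * (j : ℝ) + 1) * e))) = 1 - S e := by
  rw [(summable_se _ he).tsum_sub (summable_se' _ he), S_eq he]
  have e1 : ∑' j : ℤ, se (((0 : ℤ) : ℝ) * e + 2 * (j : ℝ) * e) = 1 + 2 * Se e := by
    rw [← sum_even he]
    refine tsum_congr fun j => ?_
    push_cast
    congr 1
    ring
  have e2 : ∑' j : ℤ, se (((0 : ℤ) : ℝ) * e + (2 * (j : ℝ) + 1) * e) = 2 * So e := by
    rw [← sum_odd he]
    refine tsum_congr fun j => ?_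
    push_cast
    congr 1
    ring
  rw [e1, e2]
  ring

/-- a bound below all brackets is below `B` -/
lemma lt_B {δ β : ℝ} (h1 : δ < 1 / 2)
    (hb : ∀ u, 0 ≤ u → u ≤ 1 - 2 * δ →
      β < 1 + hh (u ^ 2) - hh (u ^ 2 + 2 * δ * u + 2 * δ)) : β < B δ := by
  have hcont : ContinuousOn (fun u : ℝ => 1 + hh (u ^ 2) - hh (u ^ 2 + 2 * δ * u + 2 * δ))
      (Set.Icc 0 (1 - 2 * δ)) := by
    refine Continuous.continuousOn ?_
    refine (continuous_const.add (hh_cont.comp (by fun_prop))).sub (hh_cont.comp (by fun_prop))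
  obtain ⟨u0, hu0, hmin⟩ := isCompact_Icc.exists_isMinOn
    (Set.nonempty_Icc.mpr (by linarith : (0 : ℝ) ≤ 1 - 2 * δ)) hcont
  refine lt_of_lt_of_le (hb u0 hu0.1 hu0.2) ?_
  refine le_csInf ⟨_, 1 - 2 * δ, by linarith, le_refl _, rfl⟩ ?_
  rintro b ⟨u, hu1, hu2, rfl⟩
  rw [h_hh, h_hh]
  exact hmin ⟨hu1.le, hu2⟩

/-- the bound for a symmetric lattice -/
lemma lattice_point (k : ℤ) {e δ : ℝ} (he : 0 < e) (h0 : 0 < δ) (h1 : δ < 1 / 2)
    (hα : 1 - 2 * δ = α k e) :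
    R δ ≤ 1 / 2 + 1 / 2 * (∑' j : ℤ, (se (k * e + 2 * (j : ℝ) * e)
      - se (k * e + (2 * (j : ℝ) + 1) * e))) ∧
    1 / 2 + 1 / 2 * (∑' j : ℤ, (se (k * e + 2 * (j : ℝ) * e)
      - se (k * e + (2 * (j : ℝ) + 1) * e))) < B δ := by
  rw [α_al] at hα
  constructor
  · refine R_le δ _ fun ε hε => theta_codes (k * e) h0 ?_ he hε
    exact hα.le
  · exact lt_B h1 fun u hu0 hu1 => lattice_lt he k h0 hα hu0 hu1

/-- Over every `0 < δ < 1/2` there is a point `(δ, θ)` of the curve, and every such point satisfies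
`R(δ) ≤ θ < B(δ)`. -/
theorem result (δ : ℝ) (h0 : 0 < δ) (h1 : δ < 1 / 2) :
    (∃ θ, (δ, θ) ∈ Curve) ∧ ∀ θ, (δ, θ) ∈ Curve → R δ ≤ θ ∧ θ < B δ := by
  have hpi := Real.pi_pos
  constructor
  · rcases lt_trichotomy δ (1 / 2 - 1 / Real.pi) with h | h | h
    · obtain ⟨e, he, hv⟩ := exists_zero (y := 1 - 2 * δ)
        (by rw [show 2 / Real.pi = 2 * (1 / Real.pi) by ring]; linarith) (by linarith)
      refine ⟨1 - S e, Or.inr (Or.inl ⟨e, he, ?_⟩)⟩
      rw [α_al, hv]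
      congr 1
      ring
    · exact ⟨1 / 2, Or.inr (Or.inr (by rw [h]))⟩
    · obtain ⟨e, he, hv⟩ := exists_one (y := 1 - 2 * δ) (by linarith)
        (by rw [show 2 / Real.pi = 2 * (1 / Real.pi) by ring]; linarith)
      refine ⟨S e, Or.inl ⟨e, he, ?_⟩⟩
      rw [α_al, hv]
      congr 1
      ring
  · rintro θ (⟨e, he, hp⟩ | ⟨e, he, hp⟩ | hp)
    · obtain ⟨h2, h3⟩ := Prod.mk.inj hp
      subst h3
      have := lattice_point 1 he h0 h1 (by linarith)
      rw [val_one he] at this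
      exact this
    · obtain ⟨h2, h3⟩ := Prod.mk.inj hp
      subst h3
      have := lattice_point 0 he h0 h1 (by linarith)
      rw [val_zero he] at this
      exact this
    · obtain ⟨h2, h3⟩ := Prod.mk.inj hp
      subst h3
      have hα : 1 - 2 * δ = 2 / Real.pi := by rw [h2]; ring
      exact ⟨R_le δ _ fun ε hε => arcsine_codes h0 hα hε,
        lt_B h1 fun u hu0 hu1 => arcsine_lt h0 hα hu0 hu1⟩

end Pool.Agent.Results.MP_0430e4_lc.ThetaCurve
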